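import Pool.Agent.Lib_MP_b306af.Q1Final

/-!
# MP_b306af_co: free subsets of prescribed vertex sets in bounded-degree planar graphs

For every `Δ` there is `c > 0` such that in every planar graph `G` of maximum degree at most `Δ`,
every vertex set `X` contains a free set `S` of `G` with `|S| ≥ c |X|^0.8`.
-/

namespace Pool.Agent.Results.MP_b306af_co.FreeSubsets

/-- `f` is a straight-line crossing-free drawing of `G`: the vertices are distinct points, the
segment of an edge passes through no vertex other than its endpoints, and the segments of two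
different edges meet only at a common endpoint. -/
structure IsDrawing {V : Type} (G : SimpleGraph V) (f : V → ℝ × ℝ) : Prop where
  inj : Function.Injective f
  vertex : ∀ u v w, G.Adj u v → w ≠ u → w ≠ v → f w ∉ segment ℝ (f u) (f v)
  edge : ∀ u v x y, G.Adj u v → G.Adj x y → s(u, v) ≠ s(x, y) →
    ∀ p ∈ segment ℝ (f u) (f v), p ∈ segment ℝ (f x) (f y) →
      ∃ w, (w = u ∨ w = v) ∧ (w = x ∨ w = y) ∧ p = f w

/-- `G` is planar: it has a straight-line crossing-free drawing. -/
def IsPlanar {V : Type} (G : SimpleGraph V) : Prop := ∃ f : V → ℝ × ℝ, IsDrawing G f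

/-- `S` is a free set of `G`: its elements can be listed as `v 0, v 1, ...` (each exactly once)
such that for all reals `x 0 < x 1 < ...` and all reals `y 0, y 1, ...` there is a straight-line
crossing-free drawing of `G` in which `v k` is placed at `(x k, y k)` for every `k`. -/
def IsFree {V : Type} (G : SimpleGraph V) (S : Finset V) : Prop :=
  ∃ v : Fin S.card → V, Function.Injective v ∧ (∀ a, a ∈ S ↔ ∃ k, v k = a) ∧
    ∀ x y : Fin S.card → ℝ, StrictMono x →
      ∃ f : V → ℝ × ℝ, IsDrawing G f ∧ ∀ k, f (v k) = (x k, y k)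

theorem drawing_iff {V : Type} (G : SimpleGraph V) (f : V → ℝ × ℝ) :
    IsDrawing G f ↔ B306.IsDrawing G f :=
  ⟨fun h => ⟨h.inj, h.vertex, h.edge⟩, fun h => ⟨h.inj, h.vert, h.edge⟩⟩

/-- **Main theorem.** For every `Δ` there is `c > 0` such that for every planar graph `G` of
maximum degree at most `Δ` and every vertex set `X`, some `S ⊆ X` with `|S| ≥ c |X|^0.8` is a
free set of `G`. -/
theorem result : ∀ Δ : ℕ, ∃ c : ℝ, 0 < c ∧
    ∀ (V : Type) [Finite V] (G : SimpleGraph V), IsPlanar G →
      (∀ v, (G.neighborSet v).ncard ≤ Δ) →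
        ∀ X : Finset V, ∃ S ⊆ X, IsFree G S ∧ c * (X.card : ℝ) ^ (0.8 : ℝ) ≤ (S.card : ℝ) := by
  classical
  intro Δ
  obtain ⟨c, hc, h⟩ := B306.q1 Δ
  refine ⟨c, hc, ?_⟩
  intro V _ G hG hΔ X
  obtain ⟨f, hf⟩ := hG
  obtain ⟨S, hSX, ⟨v, hv, hr, hd⟩, hS⟩ := h V G hΔ ⟨f, (drawing_iff G f).1 hf⟩ (X : Set V)
  have hfin : S.Finite := S.toFinite
  have hcard : hfin.toFinset.card = S.ncard := (Set.ncard_eq_toFinset_card S hfin).symm
  refine ⟨hfin.toFinset, ?_, ?_, ?_⟩
  · intro a ha
    exact_mod_cast hSX ((Set.Finite.mem_toFinset hfin).1 ha)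
  · refine ⟨fun k => v (Fin.cast hcard k), fun a b hab => ?_, fun a => ?_, ?_⟩
    · exact Fin.cast_injective hcard (hv hab)
    · rw [Set.Finite.mem_toFinset]
      constructor
      · intro ha
        have ha' : a ∈ Set.range v := by rw [hr]; exact ha
        obtain ⟨k, rfl⟩ := ha'
        exact ⟨Fin.cast hcard.symm k, by simp⟩
      · rintro ⟨k, rfl⟩
        have h1 : v (Fin.cast hcard k) ∈ Set.range v := ⟨_, rfl⟩
        have h2 : Set.range v ⊆ S := hr.le
        exact h2 h1
    · intro x y hx
      obtain ⟨g, hg, hgx⟩ := hd (fun k => x (Fin.cast hcard.symm k))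
        (fun k => y (Fin.cast hcard.symm k)) (fun a b hab => hx (by simpa using hab))
      refine ⟨g, (drawing_iff G g).2 hg, fun k => ?_⟩
      rw [hgx]
      simp
  · rw [hcard]
    rw [Set.ncard_coe_finset] at hS
    exact hS

end Pool.Agent.Results.MP_b306af_co.FreeSubsets
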